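import Pool.Agent.Work.MP_7de521_nt.PadicMain
import Pool.Agent.Work.MP_7de521_nt.PadicDim
import Pool.Agent.Work.MP_7de521_nt.Dim
import Pool.Agent.Work.MP_7de521_nt.Concrete

/-!
The `p`-adic part of the expected answer fails for `A = R_{K/ℚ}(𝔾_m)`: there is a number field `K`
such that for every prime `p` there is a finitely generated `L ⊆ A(ℚ) = Kˣ`, relatively compact in
`A(ℚ_p) = (K ⊗ ℚ_p)ˣ`, with `rank (L ∩ B) ≤ dim B` for all algebraic subgroups `B` of `A`,
whose closure in `A(ℚ_p)` is not commensurable with `ℤ_p ^ (rank L)`.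
-/

open NumberField TensorProduct

namespace Pool.Agent.Results.MP_7de521_nt.PadicClosure

/-! ### Commensurability and rank -/

/-- The rank of an abelian group written multiplicatively. -/
noncomputable def rank (G : Type) [CommGroup G] : ℕ := Module.finrank ℤ (Additive G)

/-- Two groups are commensurable if they have isomorphic subgroups of finite index
(isomorphic as abstract groups). -/
def Commensurable (G G' : Type) [Group G] [Group G'] : Prop :=
  ∃ (H : Subgroup G) (H' : Subgroup G'), H.FiniteIndex ∧ H'.FiniteIndex ∧ Nonempty (H ≃* H')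

section

variable (p : ℕ) [Fact p.Prime] (K : Type) [Field K] [NumberField K]

/-! ### The group `A(ℚ_p) = (K ⊗ ℚ_p)ˣ` -/

/-- The `ℚ_p`-algebra `K ⊗ ℚ_p`. -/
def PAlg : Type := ℚ_[p] ⊗[ℚ] K

noncomputable instance : CommRing (PAlg p K) := (inferInstance : CommRing (ℚ_[p] ⊗[ℚ] K))

noncomputable instance : Algebra ℚ_[p] (PAlg p K) :=
  (inferInstance : Algebra ℚ_[p] (ℚ_[p] ⊗[ℚ] K))

/-- `K ⊗ ℚ_p` has the topology of a finite-dimensional vector space over `ℚ_p`, and the unit group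
`A(ℚ_p) = (K ⊗ ℚ_p)ˣ` has the topology of a unit group. -/
noncomputable instance : TopologicalSpace (PAlg p K) := moduleTopology ℚ_[p] (PAlg p K)

instance : IsTopologicalRing (PAlg p K) :=
  (inferInstance : IsTopologicalRing (ℚ_[p] ⊗[ℚ] K))

/-- The inclusion `A(ℚ) = Kˣ → A(ℚ_p) = (K ⊗ ℚ_p)ˣ`, `x ↦ 1 ⊗ x`. -/
noncomputable def toPadic : Kˣ →* (PAlg p K)ˣ :=
  Units.map ((Algebra.TensorProduct.includeRight : K →ₐ[ℚ] ℚ_[p] ⊗[ℚ] K) : K →* ℚ_[p] ⊗[ℚ] K)

variable {K} in
/-- The closure in `A(ℚ_p) = (K ⊗ ℚ_p)ˣ` of a subgroup `L` of `A(ℚ) = Kˣ`. -/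
noncomputable def padicClosure (L : Subgroup Kˣ) : Subgroup (PAlg p K)ˣ :=
  (L.map (toPadic p K)).topologicalClosure

variable {K} in
/-- The closure of `L` in `A(ℚ_p)` is compact (equivalently, `L` lies in a compact subgroup of
`A(ℚ_p)`). -/
def HasCompactClosure (L : Subgroup Kˣ) : Prop :=
  IsCompact (padicClosure p L : Set (PAlg p K)ˣ)

variable {K} in
/-- The closure of `L` in `A(ℚ_p)` is commensurable with `ℤ_p ^ n`. -/
def ClosureCommensurable (L : Subgroup Kˣ) (n : ℕ) : Prop :=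
  Commensurable (padicClosure p L) (Multiplicative (Fin n → ℤ_[p]))

end

section

variable (K : Type) [Field K] [NumberField K]

/-! ### The group `A(ℂ) = (K ⊗ ℂ)ˣ`, its algebraic subgroups and their dimension -/

/-- The `ℂ`-algebra `K ⊗ ℂ`. -/
def CAlg : Type := ℂ ⊗[ℚ] K

noncomputable instance : CommRing (CAlg K) := (inferInstance : CommRing (ℂ ⊗[ℚ] K))

noncomputable instance : Algebra ℂ (CAlg K) := (inferInstance : Algebra ℂ (ℂ ⊗[ℚ] K))

/-- The inclusion `A(ℚ) = Kˣ → A(ℂ) = (K ⊗ ℂ)ˣ`, `x ↦ 1 ⊗ x`. -/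
noncomputable def toComplex : Kˣ →* (CAlg K)ˣ :=
  Units.map ((Algebra.TensorProduct.includeRight : K →ₐ[ℚ] ℂ ⊗[ℚ] K) : K →* ℂ ⊗[ℚ] K)

/-- The index set of a `ℚ`-basis of `K`. -/
abbrev Idx : Type := Module.Free.ChooseBasisIndex ℚ K

/-- A `ℚ`-basis of `K`, as a `ℂ`-basis of `K ⊗ ℂ`. -/
noncomputable def basis : Module.Basis (Idx K) ℂ (CAlg K) :=
  Algebra.TensorProduct.basis ℂ (Module.Free.chooseBasis ℚ K)

variable {K}

/-- The coordinates of a point of `A(ℂ)` with respect to a `ℚ`-basis of `K`. -/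
noncomputable def coord (x : (CAlg K)ˣ) (i : Idx K) : ℂ := (basis K).repr (x : CAlg K) i

/-- `B` is Zariski closed in `A(ℂ)`: it is the zero locus in `A(ℂ)` of a set of
polynomials with complex coefficients in the coordinates with respect to a `ℚ`-basis of `K`. -/
def IsZariskiClosed (B : Set (CAlg K)ˣ) : Prop :=
  ∃ S : Set (MvPolynomial (Idx K) ℂ), B = {x | ∀ f ∈ S, MvPolynomial.eval (coord x) f = 0}

/-- The ideal of all complex polynomials vanishing on a subset `B` of `A(ℂ)`. -/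
noncomputable def vanishingIdeal (B : Set (CAlg K)ˣ) : Ideal (MvPolynomial (Idx K) ℂ) :=
  ⨅ x ∈ B, RingHom.ker (MvPolynomial.eval (coord x))

/-- The dimension of a Zariski closed subset `B` of `A(ℂ)`: the Krull dimension of the ring of
polynomial functions on `B`. -/
noncomputable def dim (B : Set (CAlg K)ˣ) : WithBot ℕ∞ :=
  ringKrullDim (MvPolynomial (Idx K) ℂ ⧸ vanishingIdeal B)

/-- `rank (L ∩ B) ≤ dim B` for every algebraic subgroup `B` of `A`. -/
def NoObstruction (L : Subgroup Kˣ) : Prop :=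
  ∀ B : Subgroup (CAlg K)ˣ, IsZariskiClosed (B : Set (CAlg K)ˣ) →
    (rank ↥(L ⊓ B.comap (toComplex K)) : WithBot ℕ∞) ≤ dim (B : Set (CAlg K)ˣ)

variable (K)

/-- The `p`-adic part of the expected answer for `A = R_{K/ℚ}(𝔾_m)`: if `L` is a finitely generated
subgroup of `A(ℚ) = Kˣ` whose closure in `A(ℚ_p)` is compact and `rank (L ∩ B) ≤ dim B` for every
algebraic subgroup `B` of `A`, then the closure of `L` in `A(ℚ_p)` is commensurable with
`ℤ_p ^ (rank L)`. -/
def PadicExpectedAnswer (p : ℕ) [Fact p.Prime] : Prop :=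
  ∀ L : Subgroup Kˣ, L.FG → HasCompactClosure p L → NoObstruction L →
    ClosureCommensurable p L (rank L)

end

/-- There is a number field `K` such that for every prime `p` the `p`-adic part of the expected
answer fails for `A = R_{K/ℚ}(𝔾_m)`. -/
theorem result : ∃ (K : Type) (_ : Field K) (_ : NumberField K),
    ∀ (p : ℕ) [Fact p.Prime], ¬ PadicExpectedAnswer K p := by
  refine ⟨Work.MP_7de521_nt.F, inferInstance, inferInstance, fun p hp hexp => ?_⟩
  obtain ⟨m, hgood, hm⟩ := Work.MP_7de521_nt.Padic.exists_good p hp.1.ne_zero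
  set D := Work.MP_7de521_nt.setupF
  have h1 : HasCompactClosure p (Work.MP_7de521_nt.Padic.LL D m) := by
    obtain ⟨C, hC, hLC⟩ : ∃ C : Subgroup (PAlg p Work.MP_7de521_nt.F)ˣ,
        IsCompact (C : Set (PAlg p Work.MP_7de521_nt.F)ˣ) ∧
        (Work.MP_7de521_nt.Padic.LL D m).map (toPadic p Work.MP_7de521_nt.F) ≤ C :=
      Work.MP_7de521_nt.Padic.exists_compact (p := p) D m hm
    have hT2 : T2Space (PAlg p Work.MP_7de521_nt.F) :=
      (inferInstance : T2Space (ℚ_[p] ⊗[ℚ] Work.MP_7de521_nt.F))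
    have hcl : IsClosed (C : Set (PAlg p Work.MP_7de521_nt.F)ˣ) := hC.isClosed
    exact hC.of_isClosed_subset (Subgroup.isClosed_topologicalClosure _)
      (Subgroup.topologicalClosure_minimal _ hLC hcl)
  have h2 : NoObstruction (Work.MP_7de521_nt.Padic.LL D m) := by
    intro B _
    let B' : Subgroup (ℂ ⊗[ℚ] Work.MP_7de521_nt.F)ˣ := B
    have hv : (vanishingIdeal (B : Set (CAlg Work.MP_7de521_nt.F)ˣ)) =
        Work.MP_7de521_nt.Padic.vanishingIdeal
          (B' : Set (ℂ ⊗[ℚ] Work.MP_7de521_nt.F)ˣ) := by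
      ext f
      rw [vanishingIdeal]
      simp only [Submodule.mem_iInf, RingHom.mem_ker]
      exact Iff.rfl
    have h3 := Work.MP_7de521_nt.Padic.rank_le_dim_of D hgood B'
      (fun ι _ f hf => Work.MP_7de521_nt.Padic.card_le_ringKrullDim ι f hf)
    rw [dim, hv]
    exact h3
  obtain ⟨H, H', -, hH', ⟨e⟩⟩ := hexp _ (Work.MP_7de521_nt.Padic.LL_fg D hgood) h1 h2
  have hr : rank ↥(Work.MP_7de521_nt.Padic.LL D m) = 9 :=
    Work.MP_7de521_nt.Padic.LL_rank D hgood
  revert H'
  rw [hr]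
  intro H' hH' e
  let H₂ : AddSubgroup (Fin 9 → ℤ_[p]) := Subgroup.toAddSubgroup' H'
  have hfin : H₂.FiniteIndex := ⟨by
    have h1 := hH'.index_ne_zero
    intro h2
    apply h1
    rw [← h2]
    rfl⟩
  let e₂ : H' ≃* Multiplicative H₂ :=
    { toFun := fun x => Multiplicative.ofAdd ⟨Multiplicative.toAdd x.1, x.2⟩
      invFun := fun x => ⟨Multiplicative.ofAdd (Multiplicative.toAdd x).1,
        (Multiplicative.toAdd x).2⟩
      left_inv := fun x => rfl
      right_inv := fun x => rfl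
      map_mul' := fun x y => rfl }
  exact (Work.MP_7de521_nt.Padic.closure_not_comm (p := p) D m hm H H₂ hfin).false (e.trans e₂)

end Pool.Agent.Results.MP_7de521_nt.PadicClosure
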