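import Pool.Agent.Work.MP_7de521_nt.Concrete

/-!
A finitely generated group of rational points of `A = R_{K/ℚ}(𝔾_m)` whose closure in
`A(ℝ) = (K ⊗ ℝ)ˣ` has an identity component which is not of finite index in `B(ℝ)` for any
algebraic subgroup `B` of `A` defined over `ℚ`.
-/

open NumberField

namespace Pool.Agent.Results.MP_7de521_nt.RealClosure

/-- The inclusion `A(ℚ) = Kˣ → A(ℝ) = (K ⊗ ℝ)ˣ` for `A = R_{K/ℚ}(𝔾_m)`; here `K ⊗ ℝ` is the
Mathlib ring `mixedSpace K = ℝ ^ r₁ × ℂ ^ r₂`. -/
noncomputable def toReal (K : Type) [Field K] : Kˣ →* (mixedEmbedding.mixedSpace K)ˣ :=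
  Units.map (mixedEmbedding K : K →* mixedEmbedding.mixedSpace K)

/-- The closure in `A(ℝ)` of a subgroup `L` of `A(ℚ) = Kˣ`. -/
noncomputable def realClosure {K : Type} [Field K] [NumberField K] (L : Subgroup Kˣ) :
    Subgroup (mixedEmbedding.mixedSpace K)ˣ :=
  (L.map (toReal K)).topologicalClosure

/-- The identity component of the closure of `L`, as a subgroup of `A(ℝ)`. -/
noncomputable def realClosureZero {K : Type} [Field K] [NumberField K] (L : Subgroup Kˣ) :
    Subgroup (mixedEmbedding.mixedSpace K)ˣ :=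
  (Subgroup.connectedComponentOfOne ↥(realClosure L)).map (realClosure L).subtype

/-- `B` is the zero locus in `A(ℝ) = (K ⊗ ℝ)ˣ` of a set of polynomials with rational coefficients
in the coordinates of `K ⊗ ℝ` with respect to a `ℚ`-basis of `K` (an integral basis).  The real
points of every algebraic subgroup of `A` defined over `ℚ` are of this form. -/
def IsRationalZeroLocus (K : Type) [Field K] [NumberField K]
    (B : Set (mixedEmbedding.mixedSpace K)ˣ) : Prop :=
  ∃ S : Set (MvPolynomial (Module.Free.ChooseBasisIndex ℤ (𝓞 K)) ℚ),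
    B = {x : (mixedEmbedding.mixedSpace K)ˣ | ∀ f ∈ S, MvPolynomial.aeval (fun i => (mixedEmbedding.latticeBasis K).repr
      (x : mixedEmbedding.mixedSpace K) i) f = (0 : ℝ)}

/-- There are a number field `K` and a finitely generated subgroup `L` of `Kˣ = A(ℚ)`,
`A = R_{K/ℚ}(𝔾_m)`, such that the identity component of the closure of `L` in `A(ℝ)` is not a
subgroup of finite index of `B(ℝ)`, for any algebraic subgroup `B` of `A` defined over `ℚ`
(and more generally for any subgroup of `A(ℝ)` cut out by rational polynomials). -/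
theorem result : ∃ (K : Type) (_ : Field K) (_ : NumberField K) (L : Subgroup Kˣ), L.FG ∧
    ∀ B : Subgroup (mixedEmbedding.mixedSpace K)ˣ,
      IsRationalZeroLocus K (B : Set (mixedEmbedding.mixedSpace K)ˣ) →
      ¬ (realClosureZero L ≤ B ∧ (realClosureZero L).relIndex B ≠ 0) := by
  refine ⟨Work.MP_7de521_nt.F, inferInstance, inferInstance, Work.MP_7de521_nt.setupF.L,
    Work.MP_7de521_nt.setupF.L_fg, ?_⟩
  rintro B ⟨S, hS⟩ ⟨hle, hidx⟩
  apply hidx
  refine Work.MP_7de521_nt.setupF.main S B (fun x => ?_) hle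
  rw [← SetLike.mem_coe, hS]
  rfl

end Pool.Agent.Results.MP_7de521_nt.RealClosure
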